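import Pool.Agent.Helper97.Fuchs.Base

/-!
# FU-D2: moments of the chain with insertions, exponential moment (discrete Khasminskii lemma)
-/

namespace Pool.Agent.Helper97.Fuchs

open MeasureTheory Matrix UpperHalfPlane Filter Topology
open scoped MatrixGroups ENNReal BigOperators

noncomputable section

set_option linter.unusedSectionVars false
set_option linter.unusedVariables false

variable {ι : Type} [Fintype ι]

namespace Chain

/-- the inverse steps -/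
def inv (A : ι → SL(2, ℝ)) : ι → SL(2, ℝ) := fun i => (A i)⁻¹

lemma noInv_inv {A : ι → SL(2, ℝ)} (hN : NoInv A) : NoInv (inv A) := by
  intro η hη h
  refine hN η hη fun i => ?_
  have h1 := h i
  have h2 : (η.map (circ (A i)⁻¹)).map (circ (A i)) = η := by
    rw [Measure.map_map (measurable_circ _) (measurable_circ _)]
    have : circ (A i) ∘ circ (A i)⁻¹ = id := by
      funext z
      simp [← circ_mul]
    rw [this, Measure.map_id]
  have h3 : η.map (circ (A i)⁻¹) = η := h1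
  rw [h3] at h2
  exact h2

/-- the one step operator for the inverse steps, on negative powers -/
lemma rpow_lin_le (g : SL(2, ℝ)) {s : ℝ} (hs : 0 ≤ s) {z : ℂ} (hz : z ≠ 0) :
    ‖lin g z‖ ^ (-s) ≤ nrm g ^ s * ‖z‖ ^ (-s) := by
  have h1 : 0 < ‖z‖ := norm_pos_iff.2 hz
  have h2 : 0 < ‖lin g z‖ := norm_pos_iff.2 (lin_ne_zero hz)
  have h3 := norm_le_lin g z
  have h4 := nrm_pos g
  have h5 : ‖z‖ / nrm g ≤ ‖lin g z‖ := by
    rw [div_le_iff₀ h4]; linarith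
  have h6 : ‖lin g z‖ ^ (-s) ≤ (‖z‖ / nrm g) ^ (-s) :=
    Real.rpow_le_rpow_of_nonpos (by positivity) h5 (by linarith)
  refine h6.trans (le_of_eq ?_)
  rw [Real.div_rpow h1.le h4.le, Real.rpow_neg h4.le s]
  field_simp

variable (w : ι → ℝ) (B : ι → SL(2, ℝ)) (s r : ℝ) (K : ℕ)

/-- adapted norm -/
def V (z : ℂ) : ℝ := ∑ k ∈ Finset.range K, (r ^ k)⁻¹ * (avg w B)^[k] (fun z => ‖z‖ ^ (-s)) z

variable {w B s r K}

lemma iter_nonneg (hw : ∀ i, 0 ≤ w i) (k : ℕ) {f : ℂ → ℝ} (hf : ∀ z, 0 ≤ f z) (z : ℂ) :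
    0 ≤ (avg w B)^[k] f z := by
  rw [← Ex_iter]
  exact Ex_nonneg hw fun u => hf _

lemma iter_le (hw : ∀ i, 0 ≤ w i) {Λ : ℝ} (hΛ : 0 ≤ Λ) {f : ℂ → ℝ}
    (h1 : ∀ z, z ≠ 0 → avg w B f z ≤ Λ * f z) (k : ℕ) (z : ℂ) (hz : z ≠ 0) :
    (avg w B)^[k] f z ≤ Λ ^ k * f z := by
  induction k generalizing z with
  | zero => simp
  | succ k ih =>
    rw [Function.iterate_succ_apply]
    have h2 := avg_iter_mono hw B h1 k z hz
    have h3 := congrFun (avg_iter_smul w B Λ f k) z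
    rw [h3] at h2
    refine h2.trans ?_
    have := mul_le_mul_of_nonneg_left (ih z hz) hΛ
    calc Λ * (avg w B)^[k] f z ≤ Λ * (Λ ^ k * f z) := this
      _ = Λ ^ (k + 1) * f z := by ring

lemma V_ge (hw : ∀ i, 0 ≤ w i) (hr : 0 < r) (hK : 1 ≤ K) (z : ℂ) : ‖z‖ ^ (-s) ≤ V w B s r K z := by
  unfold V
  have h0 : (0 : ℕ) ∈ Finset.range K := Finset.mem_range.2 (by omega)
  have := Finset.single_le_sum (f := fun k => (r ^ k)⁻¹ * (avg w B)^[k] (fun z => ‖z‖ ^ (-s)) z)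
    (fun k _ => mul_nonneg (by positivity) (iter_nonneg hw k (fun z => by positivity) z)) h0
  simpa using this

lemma V_nonneg (hw : ∀ i, 0 ≤ w i) (hr : 0 < r) (z : ℂ) : 0 ≤ V w B s r K z :=
  Finset.sum_nonneg fun k _ =>
    mul_nonneg (by positivity) (iter_nonneg hw k (fun z => by positivity) z)

lemma V_le (hw : ∀ i, 0 ≤ w i) (hr : 0 < r) {Λ : ℝ} (hΛ : 0 ≤ Λ)
    (h1 : ∀ z, z ≠ 0 → avg w B (fun z => ‖z‖ ^ (-s)) z ≤ Λ * ‖z‖ ^ (-s)) (z : ℂ) (hz : z ≠ 0) :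
    V w B s r K z ≤ (∑ k ∈ Finset.range K, (r ^ k)⁻¹ * Λ ^ k) * ‖z‖ ^ (-s) := by
  unfold V
  rw [Finset.sum_mul]
  refine Finset.sum_le_sum fun k _ => ?_
  rw [mul_assoc]
  exact mul_le_mul_of_nonneg_left (iter_le hw hΛ h1 k z hz) (by positivity)

/-- the adapted norm is contracted in one step -/
lemma avg_V (hw : ∀ i, 0 ≤ w i) (hr : 0 < r) (hK : 1 ≤ K)
    (h : ∀ z, z ≠ 0 → (avg w B)^[K] (fun z => ‖z‖ ^ (-s)) z ≤ r ^ K * ‖z‖ ^ (-s))
    (z : ℂ) (hz : z ≠ 0) : avg w B (V w B s r K) z ≤ r * V w B s r K z := by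
  have e1 : avg w B (V w B s r K) z
      = ∑ k ∈ Finset.range K, (r ^ k)⁻¹ * (avg w B)^[k + 1] (fun z => ‖z‖ ^ (-s)) z := by
    unfold avg V
    simp only [Finset.mul_sum]
    rw [Finset.sum_comm]
    refine Finset.sum_congr rfl fun k _ => ?_
    rw [Function.iterate_succ_apply']
    show _ = (r ^ k)⁻¹ * avg w B _ z
    unfold avg
    rw [Finset.mul_sum]
    exact Finset.sum_congr rfl fun i _ => by ring
  obtain ⟨m, rfl⟩ : ∃ m, K = m + 1 := ⟨K - 1, by omega⟩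
  rw [e1, Finset.sum_range_succ]
  unfold V
  rw [Finset.sum_range_succ']
  have e2 : ∀ k, r * ((r ^ (k + 1))⁻¹ * (avg w B)^[k + 1] (fun z => ‖z‖ ^ (-s)) z)
      = (r ^ k)⁻¹ * (avg w B)^[k + 1] (fun z => ‖z‖ ^ (-s)) z := by
    intro k
    rw [pow_succ]
    field_simp
  rw [mul_add, Finset.mul_sum]
  simp only [e2]
  have h3 := h z hz
  have h4 : (r ^ m)⁻¹ * (avg w B)^[m + 1] (fun z => ‖z‖ ^ (-s)) z
      ≤ r * ((r ^ 0)⁻¹ * (avg w B)^[0] (fun z => ‖z‖ ^ (-s)) z) := by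
    calc (r ^ m)⁻¹ * (avg w B)^[m + 1] (fun z => ‖z‖ ^ (-s)) z
        ≤ (r ^ m)⁻¹ * (r ^ (m + 1) * ‖z‖ ^ (-s)) := mul_le_mul_of_nonneg_left h3 (by positivity)
      _ = r * ((r ^ 0)⁻¹ * (avg w B)^[0] (fun z => ‖z‖ ^ (-s)) z) := by
        simp only [pow_zero, inv_one, one_mul, Function.iterate_zero, id]
        rw [pow_succ]
        field_simp
  linarith

/-- number of insertions among the first `n` steps -/
def cnt (e : ℕ → Bool) (n : ℕ) : ℕ := ((Finset.range n).filter (fun k => e k = true)).card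

lemma cnt_succ (e : ℕ → Bool) (n : ℕ) :
    cnt e (n + 1) = (if e 0 then 1 else 0) + cnt (fun k => e (k + 1)) n := by
  unfold cnt
  rw [Finset.card_filter, Finset.card_filter, Finset.sum_range_succ', add_comm]

lemma cnt_mono (e : ℕ → Bool) {m n : ℕ} (h : m ≤ n) : cnt e m ≤ cnt e n := by
  unfold cnt
  refine Finset.card_le_card (Finset.filter_subset_filter _ ?_)
  exact Finset.range_mono h

lemma cnt_add (e : ℕ → Bool) (m n : ℕ) : cnt e (m + n) = cnt e m + cnt (fun k => e (m + k)) n := by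
  induction m generalizing e with
  | zero => simp [cnt]
  | succ m ih =>
    have : m + 1 + n = (m + n) + 1 := by ring
    rw [this, cnt_succ, ih, cnt_succ, add_assoc]
    congr 3
    funext k
    congr 1
    ring

lemma sparse_shift {M : ℕ} {e : ℕ → Bool} (h : Sparse M e) (j : ℕ) :
    Sparse M (fun k => e (j + k)) := by
  intro m
  have := h (j + m)
  simpa [add_assoc] using this

lemma cnt_le {M : ℕ} (hM : 1 ≤ M) {e : ℕ → Bool} (h : Sparse M e) (n : ℕ) :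
    cnt e n ≤ 2 * (n / M + 1) := by
  have key : ∀ q : ℕ, ∀ e : ℕ → Bool, Sparse M e → cnt e (q * M) ≤ 2 * q := by
    intro q
    induction q with
    | zero => intro e _; simp [cnt]
    | succ q ih =>
      intro e he
      have : (q + 1) * M = M + q * M := by ring
      rw [this, cnt_add]
      have h1 : cnt e M ≤ 2 := by
        have := he 0
        simpa [cnt] using this
      have h2 := ih _ (sparse_shift he M)
      omega
  refine (cnt_mono e (n := (n / M + 1) * M) ?_).trans (key _ e h)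
  have := Nat.div_add_mod n M
  have h2 := Nat.mod_lt n (show 0 < M by omega)
  nlinarith

/-! ### the chain -/

/-- the inserted factor -/
def ins (N : ℝ) (b : Bool) : SL(2, ℝ) := if b then U N else 1

/-- `E ‖x_n‖^(-s)` -/
def F (w : ι → ℝ) (A : ι → SL(2, ℝ)) (N s : ℝ) (n : ℕ) (e : ℕ → Bool) (x : ℂ) : ℝ :=
  Ex w n (fun u => ‖lin (wordIns A N n e u)⁻¹ x‖ ^ (-s))

lemma F_zero (w : ι → ℝ) (A : ι → SL(2, ℝ)) (N s : ℝ) (e : ℕ → Bool) (x : ℂ) :
    F w A N s 0 e x = ‖x‖ ^ (-s) := by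
  simp [F, Ex_zero, wordIns]

lemma F_succ (w : ι → ℝ) (A : ι → SL(2, ℝ)) (N s : ℝ) (n : ℕ) (e : ℕ → Bool) (x : ℂ) :
    F w A N s (n + 1) e x
      = ∑ i, w i * F w A N s n (fun k => e (k + 1)) (lin (A i * ins N (e 0))⁻¹ x) := by
  unfold F
  rw [Ex_succ]
  refine Finset.sum_congr rfl fun i _ => ?_
  congr 1
  refine Ex_congr w fun u => ?_
  simp only [wordIns, Fin.cons_zero, Fin.cons_succ, ins]
  rw [_root_.mul_inv_rev, lin_mul]

lemma F_nonneg {w : ι → ℝ} (hw : ∀ i, 0 ≤ w i) (A : ι → SL(2, ℝ)) (N s : ℝ) (n : ℕ)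
    (e : ℕ → Bool) (x : ℂ) : 0 ≤ F w A N s n e x := Ex_nonneg hw fun u => by positivity

lemma F_le {w : ι → ℝ} (hw : ∀ i, 0 ≤ w i) (A : ι → SL(2, ℝ)) {N s r D : ℝ} (hr : 0 ≤ r)
    (hD : 1 ≤ D) {W : ℂ → ℝ} (hW0 : ∀ x, 0 ≤ W x) (hW1 : ∀ x, ‖x‖ ^ (-s) ≤ W x)
    (hW2 : ∀ x, x ≠ 0 → avg w (inv A) W x ≤ r * W x)
    (hW3 : ∀ x, x ≠ 0 → W (lin (U N)⁻¹ x) ≤ D * W x) (n : ℕ) (e : ℕ → Bool) (x : ℂ)
    (hx : x ≠ 0) : F w A N s n e x ≤ D ^ (cnt e n) * r ^ n * W x := by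
  induction n generalizing e x with
  | zero => rw [F_zero]; simpa [cnt] using hW1 x
  | succ n ih =>
    rw [F_succ]
    have h1 : ∀ i, F w A N s n (fun k => e (k + 1)) (lin (A i * ins N (e 0))⁻¹ x)
        ≤ D ^ (cnt e (n + 1)) * r ^ n * W (lin (inv A i) x) := by
      intro i
      have h2 := ih (fun k => e (k + 1)) (lin (A i * ins N (e 0))⁻¹ x) (lin_ne_zero hx)
      have h3 : W (lin (A i * ins N (e 0))⁻¹ x)
          ≤ D ^ (if e 0 then 1 else 0) * W (lin (inv A i) x) := by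
        rw [_root_.mul_inv_rev, lin_mul]
        unfold ins inv
        split_ifs with h
        · rw [pow_one]; exact hW3 _ (lin_ne_zero hx)
        · simp
      rw [cnt_succ, pow_add]
      have hD0 : 0 ≤ D := by linarith
      calc _ ≤ D ^ (cnt (fun k => e (k + 1)) n) * r ^ n * W (lin (A i * ins N (e 0))⁻¹ x) := h2
        _ ≤ D ^ (cnt (fun k => e (k + 1)) n) * r ^ n *
            (D ^ (if e 0 then 1 else 0) * W (lin (inv A i) x)) :=
          mul_le_mul_of_nonneg_left h3 (by positivity)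
        _ = _ := by ring
    have hD0 : 0 ≤ D := by linarith
    calc ∑ i, w i * F w A N s n (fun k => e (k + 1)) (lin (A i * ins N (e 0))⁻¹ x)
        ≤ ∑ i, w i * (D ^ (cnt e (n + 1)) * r ^ n * W (lin (inv A i) x)) :=
          Finset.sum_le_sum fun i _ => mul_le_mul_of_nonneg_left (h1 i) (hw i)
      _ = D ^ (cnt e (n + 1)) * r ^ n * avg w (inv A) W x := by
          unfold avg
          rw [Finset.mul_sum]
          exact Finset.sum_congr rfl fun i _ => by ring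
      _ ≤ D ^ (cnt e (n + 1)) * r ^ n * (r * W x) :=
          mul_le_mul_of_nonneg_left (hW2 x hx) (by positivity)
      _ = _ := by ring

/-- partial sums of moments -/
lemma sumF_succ (w : ι → ℝ) (A : ι → SL(2, ℝ)) (N s : ℝ) (n : ℕ) (e : ℕ → Bool) (x : ℂ) :
    ∑ k ∈ Finset.range (n + 2), F w A N s k e x
      = ‖x‖ ^ (-s) + ∑ i, w i * ∑ k ∈ Finset.range (n + 1),
          F w A N s k (fun k => e (k + 1)) (lin (A i * ins N (e 0))⁻¹ x) := by
  rw [Finset.sum_range_succ', F_zero, add_comm]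
  congr 1
  simp only [F_succ, Finset.mul_sum]
  rw [Finset.sum_comm]

/-- bound of the sums with few insertions -/
lemma sumF_le {w : ι → ℝ} (hw : ∀ i, 0 ≤ w i) (hw1 : ∑ i, w i = 1) (A : ι → SL(2, ℝ))
    {N s r C₅ : ℝ} (hr : 0 < r) (hr1 : r < 1) (hC : 0 ≤ C₅) {W : ℂ → ℝ} (hW0 : ∀ x, 0 ≤ W x)
    (hW1 : ∀ x, ‖x‖ ^ (-s) ≤ W x)
    (hW2 : ∀ x, x ≠ 0 → avg w (inv A) W x ≤ r * W x)
    {O : ℂ → Prop} (hO : ∀ x, O x → ∀ i b, O (lin (A i * ins N b)⁻¹ x))
    (hO0 : ∀ x, O x → x ≠ 0) (hO1 : ∀ x, O x → W x ≤ C₅)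
    (n : ℕ) (e : ℕ → Bool) (x : ℂ) (hx : O x) :
    (1 - r) * ∑ k ∈ Finset.range (n + 1), F w A N s k e x ≤ W x + cnt e n * C₅ := by
  induction n generalizing e x with
  | zero =>
    rw [zero_add, Finset.sum_range_one, F_zero]
    have h1 := hW1 x
    have h2 : 0 ≤ ‖x‖ ^ (-s) := by positivity
    have h3 : (0 : ℝ) ≤ cnt e 0 * C₅ := by positivity
    nlinarith
  | succ n ih =>
    rw [sumF_succ, cnt_succ]
    have h1 := hW1 x
    have h2 : 0 ≤ ‖x‖ ^ (-s) := by positivity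
    have h3 := hW2 x (hO0 x hx)
    have e1 : (1 - r) * ∑ i, w i * ∑ k ∈ Finset.range (n + 1),
          F w A N s k (fun k => e (k + 1)) (lin (A i * ins N (e 0))⁻¹ x)
        = ∑ i, w i * ((1 - r) * ∑ k ∈ Finset.range (n + 1),
          F w A N s k (fun k => e (k + 1)) (lin (A i * ins N (e 0))⁻¹ x)) := by
      rw [Finset.mul_sum]
      exact Finset.sum_congr rfl fun i _ => by ring
    have e2 : ∑ i, w i * ((1 - r) * ∑ k ∈ Finset.range (n + 1),
          F w A N s k (fun k => e (k + 1)) (lin (A i * ins N (e 0))⁻¹ x))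
        ≤ ∑ i, w i * (W (lin (A i * ins N (e 0))⁻¹ x) + cnt (fun k => e (k + 1)) n * C₅) :=
      Finset.sum_le_sum fun i _ => mul_le_mul_of_nonneg_left
        (ih (fun k => e (k + 1)) _ (hO x hx i (e 0))) (hw i)
    have e3 : ∑ i, w i * (W (lin (A i * ins N (e 0))⁻¹ x) + cnt (fun k => e (k + 1)) n * C₅)
        = (∑ i, w i * W (lin (A i * ins N (e 0))⁻¹ x)) + cnt (fun k => e (k + 1)) n * C₅ := by
      simp only [mul_add, Finset.sum_add_distrib]
      rw [← Finset.sum_mul, hw1, one_mul]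
    have e4 : ∑ i, w i * W (lin (A i * ins N (e 0))⁻¹ x)
        ≤ r * W x + ((if e 0 then 1 else 0 : ℕ) : ℝ) * C₅ := by
      cases hb : e 0
      · have : ∀ i, lin (A i * ins N false)⁻¹ x = lin (inv A i) x := by
          intro i; simp [ins, inv]
        simp only [this]
        simpa [avg] using h3
      · have h5 : ∑ i, w i * W (lin (A i * ins N true)⁻¹ x) ≤ ∑ i, w i * C₅ :=
          Finset.sum_le_sum fun i _ => mul_le_mul_of_nonneg_left (hO1 _ (hO x hx i true)) (hw i)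
        rw [← Finset.sum_mul, hw1, one_mul] at h5
        have h6 := hW0 x
        simp only [if_true, Nat.cast_one, one_mul]
        nlinarith
    rw [mul_add, e1]
    push_cast
    push_cast at e4
    have h7 : (1 - r) * ‖x‖ ^ (-s) ≤ (1 - r) * W x := mul_le_mul_of_nonneg_left h1 (by linarith)
    nlinarith

/-- the expectation of `Sx` -/
lemma ExS_succ {w : ι → ℝ} (hw1 : ∑ i, w i = 1) (A : ι → SL(2, ℝ)) (N : ℝ) (n : ℕ)
    (e : ℕ → Bool) (x : ℂ) :
    Ex w (n + 1) (fun u => Sx A N (n + 1) e u x)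
      = 1 / ‖x‖ + ∑ i, w i * Ex w n (fun u => Sx A N n (fun k => e (k + 1)) u
          (lin (A i * ins N (e 0))⁻¹ x)) := by
  rw [Ex_succ]
  simp only [Sx, Fin.cons_zero, Fin.cons_succ]
  have : ∀ i, Ex w n (fun u => 1 / ‖x‖ + Sx A N n (fun k => e (k + 1)) u
      (lin (A i * if e 0 then U N else 1)⁻¹ x))
      = 1 / ‖x‖ + Ex w n (fun u => Sx A N n (fun k => e (k + 1)) u
      (lin (A i * ins N (e 0))⁻¹ x)) := by
    intro i
    rw [Ex_add, Ex_const hw1]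
    rfl
  simp only [this, mul_add, Finset.sum_add_distrib]
  rw [← Finset.sum_mul, hw1, one_mul]

lemma ExS_le {w : ι → ℝ} (hw : ∀ i, 0 ≤ w i) (hw1 : ∑ i, w i = 1) (A : ι → SL(2, ℝ))
    {N s : ℝ} (hs1 : s ≤ 1)
    {O : ℂ → Prop} (hO : ∀ x, O x → ∀ i b, O (lin (A i * ins N b)⁻¹ x))
    (hO1 : ∀ x, O x → 1 ≤ ‖x‖)
    (n : ℕ) (e : ℕ → Bool) (x : ℂ) (hx : O x) :
    Ex w n (fun u => Sx A N n e u x) ≤ ∑ k ∈ Finset.range (n + 1), F w A N s k e x := by
  have key : ∀ x, O x → 1 / ‖x‖ ≤ ‖x‖ ^ (-s) := by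
    intro x hx
    have h1 := hO1 x hx
    have : 1 / ‖x‖ = ‖x‖ ^ (-1 : ℝ) := by
      rw [Real.rpow_neg_one, one_div]
    rw [this]
    exact Real.rpow_le_rpow_of_exponent_le h1 (by linarith)
  induction n generalizing e x with
  | zero =>
    rw [Ex_zero, zero_add, Finset.sum_range_one, F_zero]
    simpa [Sx] using key x hx
  | succ n ih =>
    rw [ExS_succ hw1, sumF_succ]
    refine add_le_add (key x hx) ?_
    exact Finset.sum_le_sum fun i _ => mul_le_mul_of_nonneg_left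
      (ih _ _ (hO x hx i (e 0))) (hw i)

/-- elementary inequality for the exponential moment -/
lemma exp_step {c f G U₀ : ℝ} (hc : 0 < c) (hU : 1 ≤ U₀) (hcU : 6 * c * U₀ ≤ 1)
    (hf : 0 ≤ f) (hfG : f ≤ G) (hG : G ≤ U₀) (hf1 : f ≤ 1) :
    Real.exp (c * f) * (1 + 2 * c * (G - f)) ≤ 1 + 2 * c * G := by
  have hc1 : c ≤ 1 / 6 := by nlinarith
  have ht0 : 0 ≤ c * f := by positivity
  have ht1 : c * f ≤ 1 := by nlinarith
  have h1 : Real.exp (c * f) ≤ 1 + c * f + (c * f) ^ 2 := by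
    have := Real.abs_exp_sub_one_sub_id_le (x := c * f) (by rw [abs_of_nonneg ht0]; exact ht1)
    have := (abs_le.1 this).2
    linarith
  have h2 : 0 ≤ 1 + 2 * c * (G - f) := by
    have : 0 ≤ G - f := by linarith
    positivity
  have h3 : Real.exp (c * f) * (1 + 2 * c * (G - f))
      ≤ (1 + c * f + (c * f) ^ 2) * (1 + 2 * c * (G - f)) :=
    mul_le_mul_of_nonneg_right h1 h2
  refine h3.trans ?_
  have hcG : c * G ≤ 1 / 6 := by nlinarith
  have hcG0 : 0 ≤ c * G := by nlinarith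
  have h4 : 0 ≤ (c * f) := ht0
  nlinarith [mul_nonneg h4 hcG0, mul_nonneg h4 h4, mul_nonneg (mul_nonneg h4 h4) hcG0,
    mul_nonneg (mul_nonneg h4 h4) h4, mul_le_mul_of_nonneg_left hcG h4,
    mul_le_mul_of_nonneg_left hcG (mul_nonneg h4 h4)]

lemma Sx_nonneg (A : ι → SL(2, ℝ)) (N : ℝ) (n : ℕ) (e : ℕ → Bool) (u : Fin n → ι) (x : ℂ) :
    0 ≤ Sx A N n e u x := by
  induction n generalizing e x with
  | zero => simp only [Sx]; positivity
  | succ n ih =>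
    simp only [Sx]
    have := ih (fun k => e (k + 1)) (fun k => u k.succ)
      (lin (A (u 0) * (if e 0 then U N else 1))⁻¹ x)
    positivity

/-- discrete Khasminskii lemma -/
lemma expS_le {w : ι → ℝ} (hw : ∀ i, 0 ≤ w i) (hw1 : ∑ i, w i = 1) (A : ι → SL(2, ℝ))
    {N c U₀ : ℝ} (hc : 0 < c) (hU : 1 ≤ U₀) (hcU : 6 * c * U₀ ≤ 1)
    {O : ℂ → Prop} (hO : ∀ x, O x → ∀ i b, O (lin (A i * ins N b)⁻¹ x))
    (hO1 : ∀ x, O x → 1 ≤ ‖x‖)
    {Q : (ℕ → Bool) → Prop} (hQ : ∀ e, Q e → Q (fun k => e (k + 1)))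
    (hG : ∀ n e x, Q e → O x → Ex w n (fun u => Sx A N n e u x) ≤ U₀)
    (n : ℕ) (e : ℕ → Bool) (x : ℂ) (he : Q e) (hx : O x) :
    Ex w n (fun u => Real.exp (c * Sx A N n e u x))
      ≤ 1 + 2 * c * Ex w n (fun u => Sx A N n e u x) := by
  induction n generalizing e x with
  | zero =>
    rw [Ex_zero, Ex_zero]
    simp only [Sx]
    have h1 := hO1 x hx
    have hf1 : 1 / ‖x‖ ≤ 1 := by
      rw [div_le_one (by linarith)]; exact h1
    have := exp_step hc hU hcU (f := 1 / ‖x‖) (G := 1 / ‖x‖) (by positivity) le_rfl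
      (hf1.trans hU) hf1
    simpa using this
  | succ n ih =>
    have h1 := hO1 x hx
    have hf1 : 1 / ‖x‖ ≤ 1 := by
      rw [div_le_one (by linarith)]; exact h1
    have e1 : Ex w (n + 1) (fun u => Real.exp (c * Sx A N (n + 1) e u x))
        = Real.exp (c * (1 / ‖x‖)) * ∑ i, w i * Ex w n (fun u => Real.exp (c *
            Sx A N n (fun k => e (k + 1)) u (lin (A i * ins N (e 0))⁻¹ x))) := by
      rw [Ex_succ]
      simp only [Sx, Fin.cons_zero, Fin.cons_succ]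
      rw [Finset.mul_sum]
      refine Finset.sum_congr rfl fun i _ => ?_
      rw [mul_left_comm]
      congr 1
      rw [← Ex_mul_left]
      refine Ex_congr w fun u => ?_
      rw [← Real.exp_add, mul_add]
      rfl
    rw [e1]
    set G := Ex w (n + 1) (fun u => Sx A N (n + 1) e u x) with hGdef
    have e2 := ExS_succ hw1 A N n e x
    rw [← hGdef] at e2
    have e3 : ∑ i, w i * Ex w n (fun u => Real.exp (c *
            Sx A N n (fun k => e (k + 1)) u (lin (A i * ins N (e 0))⁻¹ x)))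
        ≤ 1 + 2 * c * (G - 1 / ‖x‖) := by
      calc _ ≤ ∑ i, w i * (1 + 2 * c * Ex w n (fun u =>
            Sx A N n (fun k => e (k + 1)) u (lin (A i * ins N (e 0))⁻¹ x))) :=
            Finset.sum_le_sum fun i _ => mul_le_mul_of_nonneg_left
              (ih _ _ (hQ e he) (hO x hx i (e 0))) (hw i)
        _ = 1 + 2 * c * (G - 1 / ‖x‖) := by
            rw [e2]
            simp only [mul_add, mul_one, Finset.sum_add_distrib, hw1]
            rw [add_sub_cancel_left, Finset.mul_sum]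
            congr 1
            exact Finset.sum_congr rfl fun i _ => by ring
    have h5 : 1 / ‖x‖ ≤ G := by
      rw [e2]
      have : 0 ≤ ∑ i, w i * Ex w n (fun u => Sx A N n (fun k => e (k + 1)) u
          (lin (A i * ins N (e 0))⁻¹ x)) :=
        Finset.sum_nonneg fun i _ => mul_nonneg (hw i) (Ex_nonneg hw fun u => Sx_nonneg _ _ _ _ _ _)
      linarith
    calc _ ≤ Real.exp (c * (1 / ‖x‖)) * (1 + 2 * c * (G - 1 / ‖x‖)) :=
          mul_le_mul_of_nonneg_left e3 (Real.exp_pos _).le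
      _ ≤ 1 + 2 * c * G := exp_step hc hU hcU (by positivity) h5 (hG _ _ _ he hx) hf1

lemma sparse_succ {M : ℕ} {e : ℕ → Bool} (h : Sparse M e) : Sparse M (fun k => e (k + 1)) := by
  have := sparse_shift h 1
  simpa [add_comm] using this

lemma exists_N₀ (C θ : ℝ) (hθ : 1 < θ) :
    ∃ N₀ : ℕ, 1 ≤ N₀ ∧ ∀ N : ℕ, N₀ ≤ N → (C * ((N : ℝ) + 2)) ^ 4 ≤ θ ^ N := by
  have h1 : Tendsto (fun n : ℕ => (n : ℝ) ^ 4 / θ ^ n) atTop (𝓝 0) :=
    tendsto_pow_const_div_const_pow_of_one_lt 4 hθ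
  have h2 : Tendsto (fun n : ℕ => ((n + 2 : ℕ) : ℝ) ^ 4 / θ ^ (n + 2)) atTop (𝓝 0) :=
    h1.comp (tendsto_add_atTop_nat 2)
  have h3 : Tendsto (fun n : ℕ => (C ^ 4 * θ ^ 2) * (((n + 2 : ℕ) : ℝ) ^ 4 / θ ^ (n + 2))) atTop
      (𝓝 ((C ^ 4 * θ ^ 2) * 0)) := h2.const_mul _
  rw [mul_zero] at h3
  have h4 := (h3.eventually (gt_mem_nhds (show (0 : ℝ) < 1 by norm_num)))
  obtain ⟨N₀, hN₀⟩ := eventually_atTop.1 h4
  refine ⟨max N₀ 1, le_max_right _ _, fun N hN => ?_⟩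
  have h5 := hN₀ N ((le_max_left _ _).trans hN)
  have hθ0 : 0 < θ := by linarith
  have h6 : (C ^ 4 * θ ^ 2) * (((N + 2 : ℕ) : ℝ) ^ 4 / θ ^ (N + 2))
      = (C * ((N : ℝ) + 2)) ^ 4 / θ ^ N := by
    push_cast
    rw [pow_add]
    field_simp
  rw [h6, div_lt_one (by positivity)] at h5
  exact h5.le

end Chain

open Chain in
theorem chain_bounds_of (w : ι → ℝ) (A : ι → SL(2, ℝ)) (hw : IsWt w)
    (hU : U 1 ∈ grp A) (hlam : 0 < lam w (fun i => (A i)⁻¹))
    (hneg : ∀ ε : ℝ, 0 < ε → ∃ K : ℕ, 1 ≤ K ∧ ∃ s₀ : ℝ, 0 < s₀ ∧ ∀ s : ℝ, 0 < s → s ≤ s₀ →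
      ∀ z : ℂ, z ≠ 0 → (avg w (fun i => (A i)⁻¹))^[K] (fun z => ‖z‖ ^ (-s)) z
        ≤ Real.exp (-(s * (lam w (fun i => (A i)⁻¹) - ε) * K)) * ‖z‖ ^ (-s))
    (hsh : ∀ g ∈ grp A, (g 1 0 = 0 ∧ |g 0 0| = 1) ∨ 1 ≤ |g 1 0|) :
    ∃ c C s ρ : ℝ, ∃ N₀ : ℕ, 0 < c ∧ 1 ≤ C ∧ 0 < s ∧ s ≤ 1 ∧ 0 < ρ ∧ ρ < 1 ∧
      ∀ N M : ℕ, N₀ ≤ N → N ≤ M → ∀ e : ℕ → Bool, Sparse M e → ∀ n : ℕ, ∀ g ∈ grp A,
        Ex w n (fun u => Real.exp (c * Sx A N n e u (lin g 1))) ≤ 2 ∧
        Ex w n (fun u => ‖lin (wordIns A N n e u)⁻¹ (lin g 1)‖ ^ (-s))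
          ≤ C * ((N : ℝ) + 2) ^ (4 : ℕ) * ρ ^ n := by
  set l := lam w (fun i => (A i)⁻¹) with hl
  obtain ⟨K, hK, s₀, hs₀, hs⟩ := hneg (l / 2) (by positivity)
  set s := min s₀ 1 with hsdef
  have hspos : 0 < s := lt_min hs₀ one_pos
  have hs1 : s ≤ 1 := min_le_right _ _
  have hneg' := hs s hspos (min_le_left _ _)
  set r := Real.exp (-(s * (l / 2))) with hrdef
  have hr : 0 < r := Real.exp_pos _
  have hr1 : r < 1 := by
    rw [hrdef, Real.exp_lt_one_iff]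
    have : 0 < s * (l / 2) := by positivity
    linarith
  set θ := Real.exp (s * (l / 4)) with hθdef
  have hθ : 1 < θ := by
    rw [hθdef]
    exact Real.one_lt_exp_iff.2 (by positivity)
  set ρ := r * θ with hρdef
  have hρe : ρ = Real.exp (-(s * (l / 4))) := by
    rw [hρdef, hrdef, hθdef, ← Real.exp_add]
    congr 1
    ring
  have hρ : 0 < ρ := by positivity
  have hρ1 : ρ < 1 := by
    rw [hρe, Real.exp_lt_one_iff]
    have : 0 < s * (l / 4) := by positivity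
    linarith
  have hrK : r ^ K = Real.exp (-(s * (l - l / 2) * K)) := by
    rw [hrdef, ← Real.exp_nat_mul]
    congr 1
    ring
  set Λ := ∑ i, w i * nrm (A i) ^ s with hΛdef
  have hΛ : 0 ≤ Λ := Finset.sum_nonneg fun i _ =>
    mul_nonneg (hw.nonneg i) (Real.rpow_nonneg (nrm_nonneg _) _)
  have h1step : ∀ z, z ≠ 0 → avg w (inv A) (fun z => ‖z‖ ^ (-s)) z ≤ Λ * ‖z‖ ^ (-s) := by
    intro z hz
    unfold avg
    rw [hΛdef, Finset.sum_mul]
    refine Finset.sum_le_sum fun i _ => ?_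
    rw [mul_assoc]
    refine mul_le_mul_of_nonneg_left ?_ (hw.nonneg i)
    have := rpow_lin_le (inv A i) hspos.le hz
    rwa [show nrm (inv A i) = nrm (A i) from nrm_inv _] at this
  set C₅ := ∑ k ∈ Finset.range K, (r ^ k)⁻¹ * Λ ^ k with hC₅
  have hC1 : 1 ≤ C₅ := by
    have h0 : (0 : ℕ) ∈ Finset.range K := Finset.mem_range.2 (by omega)
    have := Finset.single_le_sum (f := fun k => (r ^ k)⁻¹ * Λ ^ k)
      (fun k _ => by positivity) h0
    simpa using this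
  set W : ℂ → ℝ := V w (inv A) s r K with hWdef
  have hW0 : ∀ x, 0 ≤ W x := V_nonneg hw.nonneg hr
  have hW1 : ∀ x, ‖x‖ ^ (-s) ≤ W x := V_ge hw.nonneg hr hK
  have hW2 : ∀ x, x ≠ 0 → avg w (inv A) W x ≤ r * W x := by
    refine avg_V hw.nonneg hr hK ?_
    intro z hz
    rw [hrK]
    exact hneg' z hz
  have hW4 : ∀ x, x ≠ 0 → W x ≤ C₅ * ‖x‖ ^ (-s) := V_le hw.nonneg hr hΛ h1step
  obtain ⟨N₀, hN₀1, hN₀⟩ := exists_N₀ C₅ θ hθ
  set O : ℂ → Prop := fun x => ∃ g ∈ grp A, x = lin g 1 with hOdef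
  have hOn : ∀ x, O x → 1 ≤ ‖x‖ := by
    rintro x ⟨g, hg, rfl⟩
    have e : ‖lin g 1‖ ^ 2 = g 0 0 ^ 2 + g 1 0 ^ 2 := by
      rw [Complex.sq_norm, Complex.normSq_apply, lin_re, lin_im]
      simp
      ring
    have h1 : 1 ≤ ‖lin g 1‖ ^ 2 := by
      rw [e]
      rcases hsh g hg with ⟨h0, h1⟩ | h1
      · have : g 0 0 ^ 2 = 1 := by rw [← sq_abs, h1]; norm_num
        rw [h0, this]; norm_num
      · have : 1 ≤ g 1 0 ^ 2 := by rw [← sq_abs]; nlinarith [abs_nonneg (g 1 0)]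
        nlinarith [sq_nonneg (g 0 0)]
    nlinarith [norm_nonneg (lin g 1)]
  have hO0 : ∀ x, O x → x ≠ 0 := by
    intro x hx h
    have := hOn x hx
    rw [h, norm_zero] at this
    linarith
  have hOW : ∀ x, O x → W x ≤ C₅ := by
    intro x hx
    refine (hW4 x (hO0 x hx)).trans ?_
    have h1 : ‖x‖ ^ (-s) ≤ 1 := Real.rpow_le_one_of_one_le_of_nonpos (hOn x hx) (by linarith)
    nlinarith
  have hOs : ∀ N : ℕ, ∀ x, O x → ∀ i b, O (lin (A i * ins N b)⁻¹ x) := by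
    rintro N x ⟨g, hg, rfl⟩ i b
    refine ⟨(A i * ins N b)⁻¹ * g, mul_mem (inv_mem (mul_mem (mem_grp A i) ?_)) hg, ?_⟩
    · unfold ins
      split_ifs
      · exact U_nat_mem hU N
      · exact one_mem _
    · rw [lin_mul]
  set U₀ := 3 * C₅ / (1 - r) + C₅ / (1 - ρ) with hU₀def
  have h1r : 0 < 1 - r := by linarith
  have h1ρ : 0 < 1 - ρ := by linarith
  have hU₀1 : 1 ≤ U₀ := by
    have h1 : 1 ≤ C₅ / (1 - ρ) := by
      rw [le_div_iff₀ h1ρ]; nlinarith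
    have h2 : 0 ≤ 3 * C₅ / (1 - r) := by positivity
    linarith
  refine ⟨1 / (6 * U₀), C₅ ^ 3, s, ρ, N₀, by positivity, one_le_pow₀ hC1, hspos, hs1, hρ, hρ1, ?_⟩
  intro N M hN hNM e he n g hg
  have hM1 : 1 ≤ M := by omega
  set D := C₅ * ((N : ℝ) + 2) with hDdef
  have hN2 : (1 : ℝ) ≤ (N : ℝ) + 2 := by
    have : (0 : ℝ) ≤ N := Nat.cast_nonneg N
    linarith
  have hD : 1 ≤ D := one_le_mul_of_one_le_of_one_le hC1 hN2
  have hD4 : D ^ 4 ≤ θ ^ M := (hN₀ N hN).trans (pow_le_pow_right₀ hθ.le hNM)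
  have hD2 : D ^ 2 ≤ θ ^ M := (pow_le_pow_right₀ hD (by norm_num)).trans hD4
  have hW3 : ∀ x, x ≠ 0 → W (lin (U N)⁻¹ x) ≤ D * W x := by
    intro x hx
    have h1 := hW4 (lin (U N)⁻¹ x) (lin_ne_zero hx)
    have h2 := rpow_lin_le (U (N : ℝ))⁻¹ hspos.le hx
    have h3 : nrm (U (N : ℝ))⁻¹ ^ s ≤ (N : ℝ) + 2 := by
      rw [nrm_inv]
      have h4 := nrm_U_le (N : ℝ) (Nat.cast_nonneg N)
      calc nrm (U (N : ℝ)) ^ s ≤ nrm (U (N : ℝ)) ^ (1 : ℝ) :=
            Real.rpow_le_rpow_of_exponent_le (one_le_nrm _) hs1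
        _ = nrm (U (N : ℝ)) := Real.rpow_one _
        _ ≤ _ := h4
    have h5 : 0 ≤ ‖x‖ ^ (-s) := by positivity
    calc W (lin (U N)⁻¹ x) ≤ C₅ * ‖lin (U N)⁻¹ x‖ ^ (-s) := h1
      _ ≤ C₅ * (((N : ℝ) + 2) * ‖x‖ ^ (-s)) := by
          refine mul_le_mul_of_nonneg_left (h2.trans ?_) (by linarith)
          exact mul_le_mul_of_nonneg_right h3 h5
      _ ≤ C₅ * (((N : ℝ) + 2) * W x) := by
          refine mul_le_mul_of_nonneg_left ?_ (by linarith)
          exact mul_le_mul_of_nonneg_left (hW1 x) (by linarith)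
      _ = D * W x := by rw [hDdef]; ring
  have hθn : ∀ n : ℕ, (θ ^ M) ^ (n / M) ≤ θ ^ n := by
    intro n
    rw [← pow_mul]
    exact pow_le_pow_right₀ hθ.le (Nat.mul_div_le n M)
  have hρn : ∀ n : ℕ, θ ^ n * r ^ n = ρ ^ n := by
    intro n; rw [hρdef, mul_pow]; ring
  have hFle : ∀ (n : ℕ) (e : ℕ → Bool), Sparse M e → ∀ x, O x →
      F w A N s n e x ≤ D ^ (2 * (n / M + 1)) * r ^ n * C₅ := by
    intro n e he x hx
    have h1 := F_le hw.nonneg A (N := N) hr.le hD hW0 hW1 hW2 hW3 n e x (hO0 x hx)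
    refine h1.trans ?_
    have h2 : D ^ (cnt e n) ≤ D ^ (2 * (n / M + 1)) := pow_le_pow_right₀ hD (cnt_le hM1 he n)
    have h3 := hOW x hx
    have h4 : (0 : ℝ) ≤ r ^ n := by positivity
    calc D ^ (cnt e n) * r ^ n * W x ≤ D ^ (cnt e n) * r ^ n * C₅ :=
          mul_le_mul_of_nonneg_left h3 (by positivity)
      _ ≤ D ^ (2 * (n / M + 1)) * r ^ n * C₅ := by
          refine mul_le_mul_of_nonneg_right ?_ (by linarith)
          exact mul_le_mul_of_nonneg_right h2 h4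
  have hF1 : ∀ (n : ℕ) (e : ℕ → Bool), Sparse M e → ∀ x, O x →
      F w A N s n e x ≤ D ^ 2 * ρ ^ n * C₅ := by
    intro n e he x hx
    refine (hFle n e he x hx).trans ?_
    refine mul_le_mul_of_nonneg_right ?_ (by linarith)
    have h1 : D ^ (2 * (n / M + 1)) = D ^ 2 * (D ^ 2) ^ (n / M) := by
      rw [← pow_mul, ← pow_add]
      congr 1
      ring
    rw [h1, ← hρn]
    have h2 : (D ^ 2) ^ (n / M) ≤ θ ^ n :=
      (pow_le_pow_left₀ (by positivity) hD2 _).trans (hθn n)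
    have h3 : (0 : ℝ) ≤ r ^ n := by positivity
    calc D ^ 2 * (D ^ 2) ^ (n / M) * r ^ n ≤ D ^ 2 * θ ^ n * r ^ n := by
          refine mul_le_mul_of_nonneg_right ?_ h3
          exact mul_le_mul_of_nonneg_left h2 (by positivity)
      _ = _ := by ring
  have hF2 : ∀ (n : ℕ) (e : ℕ → Bool), Sparse M e → ∀ x, O x → M ≤ n →
      F w A N s n e x ≤ C₅ * ρ ^ n := by
    intro n e he x hx hn
    refine (hFle n e he x hx).trans ?_
    rw [mul_comm]
    refine mul_le_mul_of_nonneg_left ?_ (by linarith)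
    have h0 : 1 ≤ n / M := (Nat.one_le_div_iff (by omega)).2 hn
    have h1 : D ^ (2 * (n / M + 1)) ≤ (D ^ 4) ^ (n / M) := by
      rw [← pow_mul]
      exact pow_le_pow_right₀ hD (by omega)
    have h2 : (D ^ 4) ^ (n / M) ≤ θ ^ n :=
      (pow_le_pow_left₀ (by positivity) hD4 _).trans (hθn n)
    rw [← hρn]
    exact mul_le_mul_of_nonneg_right (h1.trans h2) (by positivity)
  have hsum : ∀ (n : ℕ) (e : ℕ → Bool), Sparse M e → ∀ x, O x →
      ∑ k ∈ Finset.range (n + 1), F w A N s k e x ≤ U₀ := by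
    intro n e he x hx
    have hF0 : ∀ k, 0 ≤ F w A N s k e x := fun k => F_nonneg hw.nonneg A N s k e x
    have h1 : ∀ k, F w A N s k e x ≤ (if k < M then F w A N s k e x else 0) + C₅ * ρ ^ k := by
      intro k
      have : 0 ≤ C₅ * ρ ^ k := by positivity
      split_ifs with h
      · linarith
      · rw [zero_add]; exact hF2 k e he x hx (by omega)
    have h2 : ∑ k ∈ Finset.range (n + 1), (if k < M then F w A N s k e x else 0)
        ≤ ∑ k ∈ Finset.range M, F w A N s k e x := by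
      rw [← Finset.sum_filter]
      refine Finset.sum_le_sum_of_subset_of_nonneg ?_ (fun k _ _ => hF0 k)
      intro k hk
      rw [Finset.mem_filter] at hk
      exact Finset.mem_range.2 hk.2
    have h3 : ∑ k ∈ Finset.range M, F w A N s k e x ≤ 3 * C₅ / (1 - r) := by
      obtain ⟨m, rfl⟩ : ∃ m, M = m + 1 := ⟨M - 1, by omega⟩
      have h4 := sumF_le hw.nonneg hw.sum A (N := N) hr hr1 (by linarith : 0 ≤ C₅) hW0 hW1 hW2
        (hOs N) hO0 hOW m e x hx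
      rw [le_div_iff₀ h1r]
      have h5 : (cnt e m : ℝ) ≤ 2 := by
        have h6 : cnt e m ≤ cnt e (m + 1) := cnt_mono e (by omega)
        have h7 : cnt e (m + 1) ≤ 2 := by
          have := he 0
          simpa [cnt] using this
        exact_mod_cast h6.trans h7
      have h8 := hOW x hx
      nlinarith
    have h4 : ∑ k ∈ Finset.range (n + 1), C₅ * ρ ^ k ≤ C₅ / (1 - ρ) := by
      rw [← Finset.mul_sum, div_eq_mul_inv]
      refine mul_le_mul_of_nonneg_left ?_ (by linarith)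
      rw [← tsum_geometric_of_lt_one hρ.le hρ1]
      exact Summable.sum_le_tsum _ (fun k _ => by positivity)
        (summable_geometric_of_lt_one hρ.le hρ1)
    calc ∑ k ∈ Finset.range (n + 1), F w A N s k e x
        ≤ ∑ k ∈ Finset.range (n + 1), ((if k < M then F w A N s k e x else 0) + C₅ * ρ ^ k) :=
          Finset.sum_le_sum fun k _ => h1 k
      _ = _ + _ := Finset.sum_add_distrib
      _ ≤ U₀ := by rw [hU₀def]; linarith
  have hG : ∀ (n : ℕ) (e : ℕ → Bool) (x : ℂ), Sparse M e → O x →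
      Ex w n (fun u => Sx A N n e u x) ≤ U₀ := fun n e x he hx =>
    (ExS_le hw.nonneg hw.sum A (N := N) hs1 (hOs N) hOn n e x hx).trans (hsum n e he x hx)
  have hx : O (lin g 1) := ⟨g, hg, rfl⟩
  constructor
  · have hc : 0 < 1 / (6 * U₀) := by positivity
    have h1 := expS_le hw.nonneg hw.sum A (N := N) hc hU₀1 (by field_simp; norm_num) (hOs N) hOn
      (Q := fun e => Sparse M e) (fun e he => sparse_succ he) hG n e (lin g 1) he hx
    have h2 := hG n e (lin g 1) he hx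
    refine h1.trans ?_
    have h3 : 2 * (1 / (6 * U₀)) * Ex w n (fun u => Sx A N n e u (lin g 1)) ≤ 1 / 3 := by
      calc _ ≤ 2 * (1 / (6 * U₀)) * U₀ := mul_le_mul_of_nonneg_left h2 (by positivity)
        _ = 1 / 3 := by field_simp; norm_num
    linarith
  · have h1 := hF1 n e he (lin g 1) hx
    refine h1.trans ?_
    rw [hDdef]
    have h2 : ((N : ℝ) + 2) ^ 2 ≤ ((N : ℝ) + 2) ^ 4 := pow_le_pow_right₀ hN2 (by norm_num)
    have h3 : 0 ≤ C₅ ^ 3 * ρ ^ n := by positivity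
    calc (C₅ * ((N : ℝ) + 2)) ^ 2 * ρ ^ n * C₅ = (C₅ ^ 3 * ρ ^ n) * ((N : ℝ) + 2) ^ 2 := by ring
      _ ≤ (C₅ ^ 3 * ρ ^ n) * ((N : ℝ) + 2) ^ 4 := mul_le_mul_of_nonneg_left h2 h3
      _ = _ := by ring

end

end Pool.Agent.Helper97.Fuchs
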